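import Mathlib
import Pool.Agent.Helper736_LP.Main

set_option autoImplicit false

/-!
# Simultaneous large least primes, in many residue classes and for many moduli

Let `f(x) = log x (log₂ x)² log₄ x / (log₃ x)²` (iterated natural logarithms) and let `p(c, m)` be the least prime
`p ≡ c (mod m)`. For the moduli `m` without small prime factors the starting files have, for one class, or for a FIXED
number of classes given by values of forms, the lower bound `p(c, m) > c₀ m f(m)` (`MP_458f0b_nt.RecordModuli`,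
`MP_5b0a7e_nt.ClassesOfFormValues`). Here one small integer `b` gives large least primes at the same time in the
classes `± α b` modulo `m` for ALL pairs `(α, m)` of an arbitrary finite set, with multipliers `α` and moduli `m`
which may depend on `Q`: one has `p(± α b, m) > J(α, m) m` as soon as `∑ J(α, m) α / φ(α) ≤ c f(Q)` and all
`J(α, m) ≥ log Q`. The set can have up to `c (log₂ Q)² log₄ Q / (log₃ Q)²` members. In particular (part 2) one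
integer `b` has large least primes modulo all the members of an arbitrary set of moduli.

The proof adapts helper123's proof of `MP_f9960f_nt.SimultaneousMultiples` (medium primes: the class `0` modulo `p`
covers all the `α n + j m` with `p ∣ j`; small primes: weighted averages; large primes: the covering theorem of the
team of helper361) to linear forms `α n + j h`, `(α, h)` in an arbitrary finite set, `h` without small prime factors.
-/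

namespace Pool.Agent.Results.MP_e1dc24_nt.SimultaneousLeastPrimes

open Finset

/-- The record scale `f(x) = log x (log₂ x)² log₄ x / (log₃ x)²` (iterated natural logarithms). -/
noncomputable def f (x : ℝ) : ℝ :=
  Real.log x * (Real.log (Real.log x)) ^ 2 * Real.log (Real.log (Real.log (Real.log x))) /
    (Real.log (Real.log (Real.log x))) ^ 2

/-- Both classes `a` and `-a` modulo `m` are prime to `m`, and all the primes in them are larger than `B`. -/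
def LargeLeastPrimes (a m : ℕ) (B : ℝ) : Prop :=
  a.Coprime m ∧ ∀ p : ℕ, p.Prime → ((m : ℤ) ∣ (p : ℤ) - a ∨ (m : ℤ) ∣ (p : ℤ) + a) → B < p

/-- (1) For `0 < δ ≤ 1` there are `c > 0` and `Q₀` such that for all real `Q ≥ Q₀`: let `𝒜` be a finite set of
pairs `(α, m)` with `1 ≤ α ≤ Q^(δ/4)` and `2 ≤ m ≤ Q`, where all prime factors of `m` are at least `Q^δ`, and let
`J(α, m) ≥ log Q` be real numbers with `∑ J(α, m) α / φ(α) ≤ c f(Q)`. Then every interval `(z, z + Q^(δ/2)]` with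
`0 ≤ z ≤ Q^(δ/2)` contains an integer `b` such that for all `(α, m) ∈ 𝒜` all the primes `p ≡ ± α b (mod m)` are larger
than `J(α, m) m`. (2) For `0 < δ ≤ 1` there are `c > 0` and `Q₀` such that for `Q ≥ Q₀` and every nonempty finite set
`ℳ` of integers `2 ≤ m ≤ Q` whose prime factors are at least `Q^δ`, with `#ℳ log Q ≤ c f(Q)`, there is an integer
`0 < b ≤ Q^(δ/2)` such that for all `m ∈ ℳ` all the primes `p ≡ ± b (mod m)` are larger than `(c f(Q) / #ℳ) m`. -/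
theorem result :
    (∀ δ : ℝ, 0 < δ → δ ≤ 1 → ∃ c : ℝ, 0 < c ∧ ∃ Q₀ : ℝ, ∀ Q : ℝ, Q₀ ≤ Q →
      ∀ (𝒜 : Finset (ℕ × ℕ)) (J : ℕ × ℕ → ℝ),
      (∀ q ∈ 𝒜, 1 ≤ q.1 ∧ (q.1 : ℝ) ≤ Q ^ (δ / 4) ∧ 2 ≤ q.2 ∧ (q.2 : ℝ) ≤ Q ∧
        (∀ p : ℕ, p.Prime → p ∣ q.2 → Q ^ δ ≤ p) ∧ Real.log Q ≤ J q) →
      ∑ q ∈ 𝒜, J q * ((q.1 : ℝ) / (Nat.totient q.1 : ℝ)) ≤ c * f Q →
      ∀ z : ℕ, (z : ℝ) ≤ Q ^ (δ / 2) → ∃ b : ℕ, z < b ∧ (b : ℝ) ≤ z + Q ^ (δ / 2) ∧
        ∀ q ∈ 𝒜, LargeLeastPrimes (q.1 * b) q.2 (J q * q.2)) ∧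
    (∀ δ : ℝ, 0 < δ → δ ≤ 1 → ∃ c : ℝ, 0 < c ∧ ∃ Q₀ : ℝ, ∀ Q : ℝ, Q₀ ≤ Q →
      ∀ ℳ : Finset ℕ, ℳ.Nonempty →
      (∀ m ∈ ℳ, 2 ≤ m ∧ (m : ℝ) ≤ Q ∧ ∀ p : ℕ, p.Prime → p ∣ m → Q ^ δ ≤ p) →
      (ℳ.card : ℝ) * Real.log Q ≤ c * f Q →
      ∃ b : ℕ, 0 < b ∧ (b : ℝ) ≤ Q ^ (δ / 2) ∧
        ∀ m ∈ ℳ, LargeLeastPrimes b m (c * f Q / ℳ.card * m)) := by
  have h1 : ∀ δ : ℝ, 0 < δ → δ ≤ 1 → ∃ c : ℝ, 0 < c ∧ ∃ Q₀ : ℝ, ∀ Q : ℝ, Q₀ ≤ Q →
      ∀ (𝒜 : Finset (ℕ × ℕ)) (J : ℕ × ℕ → ℝ),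
      (∀ q ∈ 𝒜, 1 ≤ q.1 ∧ (q.1 : ℝ) ≤ Q ^ (δ / 4) ∧ 2 ≤ q.2 ∧ (q.2 : ℝ) ≤ Q ∧
        (∀ p : ℕ, p.Prime → p ∣ q.2 → Q ^ δ ≤ p) ∧ Real.log Q ≤ J q) →
      ∑ q ∈ 𝒜, J q * ((q.1 : ℝ) / (Nat.totient q.1 : ℝ)) ≤ c * f Q →
      ∀ z : ℕ, (z : ℝ) ≤ Q ^ (δ / 2) → ∃ b : ℕ, z < b ∧ (b : ℝ) ≤ z + Q ^ (δ / 2) ∧
        ∀ q ∈ 𝒜, LargeLeastPrimes (q.1 * b) q.2 (J q * q.2) := by
    intro δ hδ hδ1
    obtain ⟨c, hc, Q₀, h⟩ := Pool.Agent.Helper736_LP.main δ hδ hδ1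
    refine ⟨c, hc, Q₀, fun Q hQ 𝒜 J h𝒜 hsum z hz => ?_⟩
    obtain ⟨b, hb1, hb2, hb3⟩ := h Q hQ 𝒜 J h𝒜 hsum z hz
    refine ⟨b, hb1, hb2, fun q hq => ?_⟩
    obtain ⟨h3, h4⟩ := hb3 q hq
    refine ⟨h3, fun p hp hd => h4 p hp ?_⟩
    push_cast at hd
    exact hd
  refine ⟨h1, fun δ hδ hδ1 => ?_⟩
  obtain ⟨c, hc, Q₀, h⟩ := h1 δ hδ hδ1
  refine ⟨c, hc, max Q₀ 1, fun Q hQ ℳ hne hℳ hcard => ?_⟩
  have hQ1 : 1 ≤ Q := (le_max_right _ _).trans hQ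
  have hk : (0 : ℝ) < ℳ.card := by exact_mod_cast hne.card_pos
  obtain ⟨b, hb1, hb2, hb3⟩ := h Q ((le_max_left _ _).trans hQ) (ℳ.image (fun m => (1, m)))
    (fun _ => c * f Q / ℳ.card) (by
      intro q hq
      rw [mem_image] at hq
      obtain ⟨m, hm, rfl⟩ := hq
      obtain ⟨a1, a2, a3⟩ := hℳ m hm
      refine ⟨le_rfl, ?_, a1, a2, a3, ?_⟩
      · simpa using Real.one_le_rpow hQ1 (by positivity)
      · rw [le_div_iff₀ hk]
        linarith) (by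
      rw [sum_image (fun a _ b _ hab => (Prod.mk.inj hab).2)]
      simp only [Nat.totient_one, Nat.cast_one, div_one, mul_one]
      rw [sum_const, nsmul_eq_mul]
      apply le_of_eq
      field_simp) 0 (by
      simp only [Nat.cast_zero]
      positivity)
  refine ⟨b, hb1, by simpa using hb2, fun m hm => ?_⟩
  have h3 := hb3 (1, m) (mem_image_of_mem _ hm)
  simpa using h3

end Pool.Agent.Results.MP_e1dc24_nt.SimultaneousLeastPrimes
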